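import Pool.Agent.W285.UB.Stm2
import Pool.Agent.W64.UB.HPer

set_option autoImplicit false

/-! Project UB, part HPER2: periodic points of Hénon maps with a denominator. -/

namespace Pool.Agent.W64.UB

open Pool.Agent.W285.UB NumberField Height Module Pool.Agent.Helper259.AbsHt

theorem hper2 : S_HPER2 := by
  intro K _ _ ι d D f δ m hm L _ _ _ hD ⟨P, n, hn, hP⟩
  obtain ⟨τ, hτ⟩ := exists_ext (L := L) ι
  set T : L × L → L × L := fun Q : L × L => (Q.2, ((∑ i : Fin (d + 1),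
        algebraMap K L (algebraMap (𝓞 K) K (f i)) * Q.2 ^ (i : ℕ)) -
        algebraMap K L (algebraMap (𝓞 K) K δ) * Q.1) /
        algebraMap K L (algebraMap (𝓞 K) K m)) with hT
  have hm' : algebraMap K L (algebraMap (𝓞 K) K m) ≠ 0 := by
    rw [Ne, map_eq_zero, FaithfulSMul.algebraMap_eq_zero_iff]
    exact hm
  have hstep : ∀ j, T^[j + 1] P = T (T^[j] P) := fun j => Function.iterate_succ_apply' T j P
  let y : ℕ → L := fun j => (T^[j] P).2
  have hx : ∀ j, (T^[j + 1] P).1 = y j := fun j => by rw [hstep]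
  have hy : ∀ j, y (j + 1) = ((∑ i : Fin (d + 1),
        algebraMap K L (algebraMap (𝓞 K) K (f i)) * y j ^ (i : ℕ)) -
        algebraMap K L (algebraMap (𝓞 K) K δ) * (T^[j] P).1) /
        algebraMap K L (algebraMap (𝓞 K) K m) := fun j => by
    show (T^[j + 1] P).2 = _
    rw [hstep]
  have hy0 : y 0 = y n := by
    show (T^[0] P).2 = (T^[n] P).2
    rw [hP]
    rfl
  have hyn : y (n + 1) = y 1 := by
    show (T^[n + 1] P).2 = (T^[1] P).2
    rw [hstep, hP]
    rfl
  have hne : (Finset.Icc 1 n).Nonempty := ⟨1, Finset.mem_Icc.2 ⟨le_rfl, hn⟩⟩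
  obtain ⟨j, hj, hmax⟩ := Finset.exists_max_image (Finset.Icc 1 n) (fun j => ht ![τ (y j), 1]) hne
  rw [Finset.mem_Icc] at hj
  obtain ⟨k, rfl⟩ : ∃ k, j = k + 1 := ⟨j - 1, by omega⟩
  refine ⟨τ (y (k + 1)), τ (y (k + 1 + 1)), τ (y k), deg_le hD τ _, deg_le hD τ _, deg_le hD τ _,
    ?_, ?_, ?_⟩
  · rcases Nat.lt_or_ge (k + 1) n with h | h
    · exact hmax (k + 1 + 1) (Finset.mem_Icc.2 ⟨by omega, by omega⟩)
    · have h1 : k + 1 = n := le_antisymm hj.2 h
      have h2 : y (k + 1 + 1) = y 1 := by rw [h1, hyn]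
      rw [h2]
      exact hmax 1 (Finset.mem_Icc.2 ⟨le_rfl, hn⟩)
  · rcases Nat.eq_zero_or_pos k with h | h
    · have h2 : y k = y n := by rw [h, hy0]
      rw [h2]
      exact hmax n (Finset.mem_Icc.2 ⟨hn, le_rfl⟩)
    · exact hmax k (Finset.mem_Icc.2 ⟨h, by omega⟩)
  · have h1 := hy (k + 1)
    rw [hx k, eq_div_iff hm'] at h1
    have h2 : ∑ i : Fin (d + 1),
        algebraMap K L (algebraMap (𝓞 K) K (f i)) * y (k + 1) ^ (i : ℕ) =
        algebraMap K L (algebraMap (𝓞 K) K m) * y (k + 1 + 1) +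
          algebraMap K L (algebraMap (𝓞 K) K δ) * y k := by
      linear_combination -h1
    have h3 := congrArg τ h2
    rw [map_sum, map_add, map_mul, map_mul, hτ, hτ] at h3
    have h4 : fval (io ι) f ![τ (y (k + 1)), 1] = ∑ i : Fin (d + 1),
        τ (algebraMap K L (algebraMap (𝓞 K) K (f i)) * y (k + 1) ^ (i : ℕ)) := by
      unfold fval
      refine Finset.sum_congr rfl fun i _ => ?_
      rw [map_mul, map_pow, hτ]
      simp [io]
    rw [h4, h3]
    rfl

end Pool.Agent.W64.UB
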